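import Mathlib

set_option autoImplicit false

/-!
# Infinitely many triples with three consecutive multiplicatively dependent shifts
-/

namespace Pool.Agent.Results.MP_0e3340_nt.InfinitelyMany

/-- A triple of integers is multiplicatively dependent: `x^k₁ y^k₂ z^k₃ = 1` for integer exponents,
not all zero. (The integers below are all nonzero; the powers are taken in `ℚ`.) -/
def MultDep (x y z : ℤ) : Prop :=
  x ≠ 0 ∧ y ≠ 0 ∧ z ≠ 0 ∧
    ∃ k₁ k₂ k₃ : ℤ, (k₁ ≠ 0 ∨ k₂ ≠ 0 ∨ k₃ ≠ 0) ∧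
      (x : ℚ) ^ k₁ * (y : ℚ) ^ k₂ * (z : ℚ) ^ k₃ = 1

/-- Admissible triples. -/
def Admissible (a b c : ℤ) : Prop :=
  1 < a ∧ 1 < b ∧ 1 < c ∧ a ≠ b ∧ a ≠ c ∧ b ≠ c ∧
    ¬ (({2, 8} : Set ℤ) ⊆ {a, b, c}) ∧
    MultDep a b c ∧ MultDep (a + 1) (b + 1) (c + 1) ∧ MultDep (a + 2) (b + 2) (c + 2)

/-- The explicit family `(2, 2^k - 2, 2^k (2^k - 2))`, `k ≥ 3`. -/
theorem family (k : ℕ) (hk : 3 ≤ k) :
    Admissible 2 (2 ^ k - 2) (2 ^ k * (2 ^ k - 2)) := by
  have h8 : (8 : ℤ) ≤ 2 ^ k := by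
    calc (8 : ℤ) = 2 ^ 3 := by norm_num
      _ ≤ 2 ^ k := pow_le_pow_right₀ (by norm_num) hk
  set m : ℤ := 2 ^ k with hm
  have hprod : 8 * (m - 2) ≤ m * (m - 2) := by nlinarith
  have hmQ : (m : ℚ) = 2 ^ k := by rw [hm]; push_cast; rfl
  have hmne8 : m - 2 ≠ 8 := by
    intro h
    have h10 : m = 10 := by omega
    rcases Nat.lt_or_ge k 4 with h4 | h4
    · have h3 : k = 3 := by omega
      rw [hm, h3] at h10
      norm_num at h10
    · have h16 : (16 : ℤ) ≤ 2 ^ k := by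
        calc (16 : ℤ) = 2 ^ 4 := by norm_num
          _ ≤ 2 ^ k := pow_le_pow_right₀ (by norm_num) h4
      rw [← hm] at h16
      omega
  refine ⟨by norm_num, by omega, by nlinarith, by omega, by nlinarith, by nlinarith, ?_, ?_, ?_,
    ?_⟩
  · intro hsub
    have h : (8 : ℤ) ∈ ({2, m - 2, m * (m - 2)} : Set ℤ) := hsub (by simp)
    simp only [Set.mem_insert_iff, Set.mem_singleton_iff] at h
    rcases h with h | h | h
    · norm_num at h
    · exact hmne8 h.symm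
    · nlinarith
  · refine ⟨by norm_num, by omega, by nlinarith, k, 1, -1, Or.inr (Or.inl one_ne_zero), ?_⟩
    have h2 : ((m - 2 : ℤ) : ℚ) ≠ 0 := by
      have : m - 2 ≠ 0 := by omega
      exact_mod_cast this
    rw [zpow_one, zpow_neg_one, zpow_natCast]
    have h3 : (m : ℚ) ≠ 0 := by rw [hmQ]; positivity
    push_cast at h2 ⊢
    rw [← hmQ]
    exact mul_inv_cancel₀ (mul_ne_zero h3 h2)
  · have e : m * (m - 2) + 1 = (m - 1) ^ 2 := by ring
    have e' : m - 2 + 1 = m - 1 := by ring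
    refine ⟨by norm_num, by omega, by nlinarith, 0, 2, -1, Or.inr (Or.inl two_ne_zero), ?_⟩
    rw [e, e']
    have h2 : ((m - 1 : ℤ) : ℚ) ≠ 0 := by
      have : m - 1 ≠ 0 := by omega
      exact_mod_cast this
    rw [zpow_zero, one_mul, zpow_neg_one]
    push_cast at h2 ⊢
    have : ((m : ℚ) - 1) ^ (2 : ℤ) = ((m : ℚ) - 1) ^ 2 := by
      rw [show (2 : ℤ) = ((2 : ℕ) : ℤ) from rfl, zpow_natCast]
    rw [this]
    exact mul_inv_cancel₀ (pow_ne_zero 2 h2)
  · refine ⟨by norm_num, by omega, by nlinarith, k, -2, 0, Or.inr (Or.inl (by norm_num)), ?_⟩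
    have e : m - 2 + 2 = m := by ring
    rw [e, hmQ, zpow_zero, mul_one]
    have h3 : (2 : ℚ) ^ k ≠ 0 := by positivity
    have h4 : (((2 : ℤ) + 2 : ℤ) : ℚ) = 2 ^ 2 := by norm_num
    rw [h4, zpow_natCast, zpow_neg, show (2 : ℤ) = ((2 : ℕ) : ℤ) from rfl, zpow_natCast]
    rw [← pow_mul, ← pow_mul, mul_comm 2 k]
    exact mul_inv_cancel₀ (by positivity)

/-- **Q1: yes.** There are infinitely many admissible triples `(a, b, c)` with `a < b < c`. -/
theorem result :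
    {t : ℤ × ℤ × ℤ | Admissible t.1 t.2.1 t.2.2 ∧ t.1 < t.2.1 ∧ t.2.1 < t.2.2}.Infinite := by
  apply Set.infinite_of_injective_forall_mem
    (f := fun n : ℕ => ((2 : ℤ), (2 : ℤ) ^ (n + 3) - 2, (2 : ℤ) ^ (n + 3) * (2 ^ (n + 3) - 2)))
  · intro n m h
    simp only [Prod.mk.injEq, true_and] at h
    have h1 : (2 : ℤ) ^ (n + 3) = 2 ^ (m + 3) := by linarith [h.1]
    have h2 : n + 3 = m + 3 := by
      exact_mod_cast Int.pow_right_injective (le_refl 2) h1
    omega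
  · intro n
    have h8 : (8 : ℤ) ≤ 2 ^ (n + 3) := by
      calc (8 : ℤ) = 2 ^ 3 := by norm_num
        _ ≤ 2 ^ (n + 3) := pow_le_pow_right₀ (by norm_num) (by omega)
    refine ⟨family (n + 3) (by omega), ?_, ?_⟩
    · show (2 : ℤ) < 2 ^ (n + 3) - 2
      linarith
    · show (2 : ℤ) ^ (n + 3) - 2 < 2 ^ (n + 3) * (2 ^ (n + 3) - 2)
      nlinarith

end Pool.Agent.Results.MP_0e3340_nt.InfinitelyMany
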